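import Pool.Agent.Helper28.T3.StA

/-!
# Project T3 (MP_1d384c_nt), module IDL: an ideal class of order 3
-/

set_option autoImplicit false

open scoped NumberField nonZeroDivisors

namespace Pool.Agent.Helper99.T3

open Pool.Agent.Helper28.T3

theorem hIDL : StIDL := by
  intro K _ _ h
  have : Fact (Nat.Prime 3) := ⟨Nat.prime_three⟩
  obtain ⟨c, hc⟩ := exists_prime_orderOf_dvd_card (G := ClassGroup (𝓞 K)) 3 h
  obtain ⟨J, rfl⟩ := ClassGroup.mk0_surjective c
  have h3 : ClassGroup.mk0 (J ^ 3) = 1 := by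
    rw [map_pow, ← hc, pow_orderOf_eq_one]
  rw [ClassGroup.mk0_eq_one_iff] at h3
  obtain ⟨α, hα⟩ := h3
  have hJ : (J : Ideal (𝓞 K)) ≠ ⊥ := nonZeroDivisors.ne_zero J.2
  refine ⟨(J : Ideal (𝓞 K)), α, hJ, ?_, ?_⟩
  · rw [← SubmonoidClass.coe_pow, hα]
  · intro hp
    have h1 : ClassGroup.mk0 J = 1 := by
      rw [ClassGroup.mk0_eq_one_iff]
      exact hp
    rw [h1, orderOf_one] at hc
    norm_num at hc

end Pool.Agent.Helper99.T3
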